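import Mathlib
import Pool.Agent.H19.GraphComb
import Pool.Agent.H19.GraphLin

set_option autoImplicit false

namespace Pool.Agent.Results.MP_764677_ag.BridgeBetti

open MvPolynomial Relation

section Koszul

variable {k : Type} [Field k] {N : ℕ}

/-- Families `(c_T)` of elements of `R = S/I`, where `S = k[x_0, …, x_{N-1}]`, indexed by the
subsets `T` of the set of variables, standing for `∑_T c_T e_T`. -/
abbrev Family (I : Ideal (MvPolynomial (Fin N) k)) : Type :=
  Finset (Fin N) → MvPolynomial (Fin N) k ⧸ I

/-- The differential of the Koszul complex of the variables `x_0, …, x_{N-1}` on `R = S/I`. It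
sends `e_{T ∪ {x}}` (with `x ∉ T`) to `± x e_T + …`, the sign being `(-1)^{#{t ∈ T : t < x}}`. -/
noncomputable def koszulFun (I : Ideal (MvPolynomial (Fin N) k)) (c : Family I) : Family I :=
  fun T => ∑ x ∈ Tᶜ, (-1) ^ (T.filter (fun t => t < x)).card *
    (Ideal.Quotient.mk I (X x) * c (insert x T))

lemma koszulFun_add (I : Ideal (MvPolynomial (Fin N) k)) (c c' : Family I) :
    koszulFun I (c + c') = koszulFun I c + koszulFun I c' := by
  ext T
  simp [koszulFun, mul_add, Finset.sum_add_distrib]

lemma koszulFun_smul (I : Ideal (MvPolynomial (Fin N) k)) (t : k) (c : Family I) :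
    koszulFun I (t • c) = (RingHom.id k) t • koszulFun I c := by
  ext T
  simp only [koszulFun, Pi.smul_apply, RingHom.id_apply, Finset.smul_sum, mul_smul_comm]

/-- The Koszul differential as a linear map. -/
noncomputable def koszulD (I : Ideal (MvPolynomial (Fin N) k)) : Family I →ₗ[k] Family I :=
  ⟨⟨koszulFun I, koszulFun_add I⟩, koszulFun_smul I⟩

/-- The component `R_d` of `R = S/I`: the classes of the homogeneous polynomials of degree `d`. -/
noncomputable def component (I : Ideal (MvPolynomial (Fin N) k)) (d : ℕ) :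
    Submodule k (MvPolynomial (Fin N) k ⧸ I) :=
  (homogeneousSubmodule (Fin N) k d).map (Ideal.Quotient.mkₐ k I).toLinearMap

/-- The chains of the Koszul complex `K(x_0, …, x_{N-1}; R)` of homological degree `i` and internal
degree `j`: families supported on the subsets of cardinality `i`, with entries in the component
`R_{j-i}` (which is zero for `j < i`). -/
noncomputable def chains (I : Ideal (MvPolynomial (Fin N) k)) (i j : ℕ) : Submodule k (Family I) :=
  Submodule.pi Set.univ (fun T => if T.card = i ∧ i ≤ j then component I (j - i) else ⊥)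

/-- The cycles of homological degree `i` and internal degree `j`. -/
noncomputable def cycles (I : Ideal (MvPolynomial (Fin N) k)) (i j : ℕ) : Submodule k (Family I) :=
  chains I i j ⊓ LinearMap.ker (koszulD I)

/-- The boundaries of homological degree `i` and internal degree `j`. -/
noncomputable def boundaries (I : Ideal (MvPolynomial (Fin N) k)) (i j : ℕ) :
    Submodule k (Family I) :=
  (chains I (i + 1) j).map (koszulD I)

/-- The graded Betti number `b_{i,j} = dim_k Tor_i^S(S/I, k)_j`, computed as the dimension of the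
homology of the Koszul complex of the variables on `S/I` in homological degree `i` and internal
degree `j`. -/
noncomputable def betti (I : Ideal (MvPolynomial (Fin N) k)) (i j : ℕ) : ℕ :=
  Module.finrank k (↥(cycles I i j) ⧸ (boundaries I i j).submoduleOf (cycles I i j))

end Koszul

section Graph

/-- Condition (A) (planarity is not needed): `G` is connected, every vertex has degree at most
three, not every vertex has degree three, and every connected subgraph `H` satisfies
`d(H) ≥ 2 g(H) + 1`, where `g(H) = m(H) - d(H) + 1`. -/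
structure CondA {V : Type} (G : SimpleGraph V) : Prop where
  connected : G.Connected
  degree_le : ∀ v, (G.neighborSet v).ncard ≤ 3
  exists_ne : ∃ v, (G.neighborSet v).ncard ≠ 3
  subgraph : ∀ H : G.Subgraph, H.Connected →
    2 * ((H.edgeSet.ncard : ℤ) - H.verts.ncard + 1) + 1 ≤ H.verts.ncard

/-- A graph curve of `G` in `ℙ^{N-1}`, given by the planes in `k^N` over its lines: the lines are
distinct, lines of adjacent vertices meet in exactly one point, distinct edges give distinct
points, lines of distinct non-adjacent vertices are disjoint, and the lines span the space. -/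
structure IsGraphCurve {k : Type} [Field k] {V : Type} (G : SimpleGraph V) {N : ℕ}
    (L : V → Submodule k (Fin N → k)) : Prop where
  line : ∀ v, Module.finrank k (L v) = 2
  distinct : Function.Injective L
  meet : ∀ v w, G.Adj v w → Module.finrank k ↥(L v ⊓ L w) = 1
  nodes : ∀ v w v' w', G.Adj v w → G.Adj v' w' → s(v, w) ≠ s(v', w') → L v ⊓ L w ≠ L v' ⊓ L w'
  skew : ∀ v w, v ≠ w → ¬ G.Adj v w → L v ⊓ L w = ⊥
  span : ⨆ v, L v = ⊤

end Graph

section KoszulLemmas

variable {k : Type} [Field k] {N : ℕ}

lemma koszulD_apply (I : Ideal (MvPolynomial (Fin N) k))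
    (c : Finset (Fin N) → MvPolynomial (Fin N) k ⧸ I) (T : Finset (Fin N)) :
    koszulD I c T = ∑ x ∈ Tᶜ, (-1) ^ (T.filter (fun t => t < x)).card *
      (Ideal.Quotient.mk I (X x) * c (insert x T)) := rfl

lemma card_filter_compl (s : Finset (Fin N)) (x : Fin N) :
    ((sᶜ).filter (fun t => t < x)).card + (s.filter (fun t => t < x)).card = x := by
  have h1 : (Finset.univ.filter (fun t : Fin N => t < x)).card = x := by
    have : Finset.univ.filter (fun t : Fin N => t < x) = Finset.Iio x := by
      ext t
      simp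
    rw [this, Fin.card_Iio]
  rw [← h1, ← Finset.card_union_of_disjoint]
  · congr 1
    ext t
    simp only [Finset.mem_union, Finset.mem_filter, Finset.mem_compl, Finset.mem_univ, true_and]
    tauto
  · rw [Finset.disjoint_left]
    intro t ht ht'
    simp only [Finset.mem_filter, Finset.mem_compl] at ht ht'
    exact ht.1 ht'.1

lemma insert_compl_pair (a b : Fin N) (hab : a ≠ b) :
    insert a ({a, b}ᶜ : Finset (Fin N)) = {b}ᶜ := by
  ext t
  simp only [Finset.mem_insert, Finset.mem_compl, Finset.mem_singleton]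
  constructor
  · rintro (rfl | h)
    · exact hab
    · exact fun h' => h (Or.inr h')
  · intro h
    by_cases hta : t = a
    · exact Or.inl hta
    · right
      rintro (h' | h')
      · exact hta h'
      · exact h h'

lemma insert_compl_triple (a b d : Fin N) (hab : a ≠ b) (had : a ≠ d) :
    insert a ({a, b, d}ᶜ : Finset (Fin N)) = {b, d}ᶜ := by
  ext t
  simp only [Finset.mem_insert, Finset.mem_compl, Finset.mem_singleton]
  constructor
  · rintro (rfl | h)
    · rintro (h' | h')
      · exact hab h'
      · exact had h'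
    · exact fun h' => h (Or.inr h')
  · intro h
    by_cases hta : t = a
    · exact Or.inl hta
    · right
      rintro (h' | h')
      · exact hta h'
      · exact h h'

/-- the differential at the complement of a pair -/
lemma koszulD_pair (I : Ideal (MvPolynomial (Fin N) k))
    (c : Finset (Fin N) → MvPolynomial (Fin N) k ⧸ I) (a b : Fin N) (hab : a < b) :
    koszulD I c {a, b}ᶜ = (-1) ^ (a : ℕ) * (Ideal.Quotient.mk I (X a) * c {b}ᶜ)
      - (-1) ^ (b : ℕ) * (Ideal.Quotient.mk I (X b) * c {a}ᶜ) := by
  have hne : a ≠ b := hab.ne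
  have e1 : (({a, b}ᶜ : Finset (Fin N)).filter (fun t => t < a)).card = a := by
    have := card_filter_compl {a, b} a
    have h0 : (({a, b} : Finset (Fin N)).filter (fun t => t < a)) = ∅ := by
      ext t
      simp only [Finset.mem_filter, Finset.mem_insert, Finset.mem_singleton, Finset.notMem_empty,
        iff_false, not_and, not_lt]
      rintro (rfl | rfl)
      · exact le_rfl
      · exact hab.le
    rw [h0, Finset.card_empty, add_zero] at this
    exact this
  have e2 : (({a, b}ᶜ : Finset (Fin N)).filter (fun t => t < b)).card + 1 = b := by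
    have := card_filter_compl {a, b} b
    have h0 : (({a, b} : Finset (Fin N)).filter (fun t => t < b)) = {a} := by
      ext t
      simp only [Finset.mem_filter, Finset.mem_insert, Finset.mem_singleton]
      constructor
      · rintro ⟨rfl | rfl, h⟩
        · rfl
        · exact absurd h (lt_irrefl _)
      · rintro rfl
        exact ⟨Or.inl rfl, hab⟩
    rw [h0, Finset.card_singleton] at this
    exact this
  rw [koszulD_apply, compl_compl, Finset.sum_pair hne, e1, insert_compl_pair a b hne]
  have h3 : insert b ({a, b}ᶜ : Finset (Fin N)) = {a}ᶜ := by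
    rw [Finset.pair_comm]
    exact insert_compl_pair b a hne.symm
  rw [h3, ← e2]
  ring

/-- the differential at the complement of a triple -/
lemma koszulD_triple (I : Ideal (MvPolynomial (Fin N) k))
    (c : Finset (Fin N) → MvPolynomial (Fin N) k ⧸ I) (a b d : Fin N) (hab : a < b) (hbd : b < d) :
    koszulD I c {a, b, d}ᶜ = (-1) ^ (a : ℕ) * (Ideal.Quotient.mk I (X a) * c {b, d}ᶜ)
      - (-1) ^ (b : ℕ) * (Ideal.Quotient.mk I (X b) * c {a, d}ᶜ)
      + (-1) ^ (d : ℕ) * (Ideal.Quotient.mk I (X d) * c {a, b}ᶜ) := by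
  have had : a < d := hab.trans hbd
  have e1 : (({a, b, d}ᶜ : Finset (Fin N)).filter (fun t => t < a)).card = a := by
    have := card_filter_compl {a, b, d} a
    have h0 : (({a, b, d} : Finset (Fin N)).filter (fun t => t < a)) = ∅ := by
      ext t
      simp only [Finset.mem_filter, Finset.mem_insert, Finset.mem_singleton, Finset.notMem_empty,
        iff_false, not_and, not_lt]
      rintro (rfl | rfl | rfl)
      · exact le_rfl
      · exact hab.le
      · exact had.le
    rw [h0, Finset.card_empty, add_zero] at this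
    exact this
  have e2 : (({a, b, d}ᶜ : Finset (Fin N)).filter (fun t => t < b)).card + 1 = b := by
    have := card_filter_compl {a, b, d} b
    have h0 : (({a, b, d} : Finset (Fin N)).filter (fun t => t < b)) = {a} := by
      ext t
      simp only [Finset.mem_filter, Finset.mem_insert, Finset.mem_singleton]
      constructor
      · rintro ⟨rfl | rfl | rfl, h⟩
        · rfl
        · exact absurd h (lt_irrefl _)
        · exact absurd h (not_lt.2 hbd.le)
      · rintro rfl
        exact ⟨Or.inl rfl, hab⟩
    rw [h0, Finset.card_singleton] at this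
    exact this
  have e3 : (({a, b, d}ᶜ : Finset (Fin N)).filter (fun t => t < d)).card + 2 = d := by
    have := card_filter_compl {a, b, d} d
    have h0 : (({a, b, d} : Finset (Fin N)).filter (fun t => t < d)) = {a, b} := by
      ext t
      simp only [Finset.mem_filter, Finset.mem_insert, Finset.mem_singleton]
      constructor
      · rintro ⟨rfl | rfl | rfl, h⟩
        · exact Or.inl rfl
        · exact Or.inr rfl
        · exact absurd h (lt_irrefl _)
      · rintro (rfl | rfl)
        · exact ⟨Or.inl rfl, had⟩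
        · exact ⟨Or.inr (Or.inl rfl), hbd⟩
    rw [h0, Finset.card_pair hab.ne] at this
    exact this
  have hsum : ∀ f : Fin N → MvPolynomial (Fin N) k ⧸ I, ∑ x ∈ ({a, b, d} : Finset (Fin N)), f x
      = f a + f b + f d := by
    intro f
    rw [Finset.sum_insert (by
      simp only [Finset.mem_insert, Finset.mem_singleton, not_or]
      exact ⟨hab.ne, had.ne⟩), Finset.sum_pair hbd.ne]
    ring
  rw [koszulD_apply, compl_compl, hsum, e1, insert_compl_triple a b d hab.ne had.ne]
  have h3 : insert b ({a, b, d}ᶜ : Finset (Fin N)) = {a, d}ᶜ := by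
    rw [Finset.insert_comm a b]
    exact insert_compl_triple b a d hab.ne' hbd.ne
  have h4 : insert d ({a, b, d}ᶜ : Finset (Fin N)) = {a, b}ᶜ := by
    have : ({a, b, d} : Finset (Fin N)) = {d, a, b} := by
      ext t
      simp only [Finset.mem_insert, Finset.mem_singleton]
      tauto
    rw [this]
    exact insert_compl_triple d a b had.ne' hbd.ne'
  rw [h3, h4, ← e2, ← e3]
  ring

/-- the linear form with given values -/
noncomputable def linForm (φ : (Fin N → k) →ₗ[k] k) : MvPolynomial (Fin N) k :=
  ∑ i, C (φ (Pi.single i 1)) * X i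

lemma linForm_hom (φ : (Fin N → k) →ₗ[k] k) : (linForm φ).IsHomogeneous 1 := by
  refine IsHomogeneous.sum _ _ _ fun i _ => ?_
  have := (isHomogeneous_C (Fin N) (φ (Pi.single i 1))).mul (isHomogeneous_X k i)
  simpa using this

lemma eval_linForm (φ : (Fin N → k) →ₗ[k] k) (u : Fin N → k) : eval u (linForm φ) = φ u := by
  have hu : u = ∑ i, u i • (Pi.single i (1 : k) : Fin N → k) := by
    ext j
    simp [Finset.sum_apply, Pi.single_apply]
  conv_rhs => rw [hu]
  simp [linForm, mul_comm]

lemma linForm_add (φ ψ : (Fin N → k) →ₗ[k] k) : linForm (φ + ψ) = linForm φ + linForm ψ := by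
  simp [linForm, add_mul, Finset.sum_add_distrib]

lemma linForm_smul (t : k) (φ : (Fin N → k) →ₗ[k] k) : linForm (t • φ) = t • linForm φ := by
  simp [linForm, Finset.smul_sum, MvPolynomial.smul_eq_C_mul, mul_assoc]

/-- a homogeneous polynomial of degree one is a linear form -/
lemma eq_linForm (l : MvPolynomial (Fin N) k) (hl : l.IsHomogeneous 1) :
    ∃ φ : (Fin N → k) →ₗ[k] k, l = linForm φ := by
  have h1 : l = ∑ i, C (coeff (Finsupp.single i 1) l) * X i := by
    ext m
    simp only [coeff_sum, coeff_C_mul, coeff_X]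
    by_cases hm : ∃ i, m = Finsupp.single i 1
    · obtain ⟨i, rfl⟩ := hm
      rw [Finset.sum_eq_single i]
      · simp
      · intro j _ hj
        have : ¬ (Finsupp.single j 1 = Finsupp.single i (1 : ℕ)) := by
          intro h
          exact hj ((Finsupp.single_left_inj one_ne_zero).1 h)
        simp [this]
      · simp
    · have h0 : coeff m l = 0 := by
        by_contra hne
        apply hm
        have hd := hl hne
        have hd' : m.sum (fun _ n => n) = 1 := by
          rw [← hd]
          simp [Finsupp.weight_apply]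
        exact (Finsupp.sum_eq_one_iff m).1 hd'
      rw [h0]
      symm
      apply Finset.sum_eq_zero
      intro j _
      have : ¬ (Finsupp.single j 1 = m) := fun h => hm ⟨j, h.symm⟩
      simp [this]
  let φ : (Fin N → k) →ₗ[k] k :=
    { toFun := fun u => ∑ i, coeff (Finsupp.single i 1) l * u i
      map_add' := by
        intro u v
        simp [mul_add, Finset.sum_add_distrib]
      map_smul' := by
        intro t u
        simp [Finset.mul_sum, mul_left_comm] }
  refine ⟨φ, ?_⟩
  rw [linForm]
  conv_lhs => rw [h1]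
  refine Finset.sum_congr rfl fun i _ => ?_
  congr 2
  simp [φ, Pi.single_apply]

/-- a homogeneous polynomial of degree zero is a constant -/
lemma eq_C_of_hom (l : MvPolynomial (Fin N) k) (hl : l.IsHomogeneous 0) : ∃ t : k, l = C t := by
  refine ⟨coeff 0 l, ?_⟩
  ext m
  rw [coeff_C]
  split_ifs with h
  · rw [← h]
  · by_contra hne
    have hd := hl hne
    apply h
    have hd' : m.sum (fun _ n => n) = 0 := by
      rw [← hd]
      simp [Finsupp.weight_apply]
    ext i
    have := (Finset.sum_eq_zero_iff).1 hd'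
    by_cases hi : i ∈ m.support
    · exact (this i hi).symm
    · rw [Finsupp.notMem_support_iff] at hi
      rw [hi]
      rfl

/-- The chain of homological degree `N - 2` with linear entries attached to a linear map `F` with
values in matrices: the entry at the complement of `{a, b}`, `a < b`, is `(-1)^{a+b} F_{ab}`. -/
noncomputable def chainOf (I : Ideal (MvPolynomial (Fin N) k))
    (F : (Fin N → k) →ₗ[k] (Fin N → Fin N → k)) (T : Finset (Fin N)) : MvPolynomial (Fin N) k ⧸ I :=
  if T.card + 2 = N then
    ∑ a ∈ Tᶜ, ∑ b ∈ Tᶜ, if a < b then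
      (-1) ^ ((a : ℕ) + (b : ℕ)) * Ideal.Quotient.mk I
        (linForm ((LinearMap.proj b).comp ((LinearMap.proj a).comp F)))
      else 0
  else 0

lemma card_compl_pair (a b : Fin N) (hab : a ≠ b) : ({a, b}ᶜ : Finset (Fin N)).card + 2 = N := by
  have := Finset.card_compl_add_card ({a, b} : Finset (Fin N))
  rw [Finset.card_pair hab, Fintype.card_fin] at this
  exact this

lemma chainOf_pair (I : Ideal (MvPolynomial (Fin N) k))
    (F : (Fin N → k) →ₗ[k] (Fin N → Fin N → k)) (a b : Fin N) (hab : a < b) :
    chainOf I F {a, b}ᶜ = (-1) ^ ((a : ℕ) + (b : ℕ)) * Ideal.Quotient.mk I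
        (linForm ((LinearMap.proj b).comp ((LinearMap.proj a).comp F))) := by
  rw [chainOf, if_pos (card_compl_pair a b hab.ne), compl_compl, Finset.sum_pair hab.ne,
    Finset.sum_pair hab.ne, Finset.sum_pair hab.ne, if_neg (lt_irrefl _), if_pos hab,
    if_neg (not_lt.2 hab.le), if_neg (lt_irrefl _)]
  ring

lemma chainOf_of_card_ne (I : Ideal (MvPolynomial (Fin N) k))
    (F : (Fin N → k) →ₗ[k] (Fin N → Fin N → k)) (T : Finset (Fin N)) (hT : T.card + 2 ≠ N) :
    chainOf I F T = 0 := by
  rw [chainOf, if_neg hT]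

/-- sets with complement of size two -/
lemma exists_pair (T : Finset (Fin N)) (hT : T.card + 2 = N) :
    ∃ a b : Fin N, a < b ∧ T = {a, b}ᶜ := by
  have h1 : Tᶜ.card = 2 := by
    rw [Finset.card_compl, Fintype.card_fin]
    omega
  obtain ⟨a, b, hab, h⟩ := Finset.card_eq_two.1 h1
  rcases lt_or_gt_of_ne hab with hlt | hlt
  · exact ⟨a, b, hlt, by rw [← h, compl_compl]⟩
  · refine ⟨b, a, hlt, ?_⟩
    rw [Finset.pair_comm, ← h, compl_compl]

/-- sets with complement of size three -/
lemma exists_triple (T : Finset (Fin N)) (hT : T.card + 3 = N) :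
    ∃ a b d : Fin N, a < b ∧ b < d ∧ T = {a, b, d}ᶜ := by
  have h1 : Tᶜ.card = 3 := by
    rw [Finset.card_compl, Fintype.card_fin]
    omega
  let e := Tᶜ.orderEmbOfFin h1
  refine ⟨e 0, e 1, e 2, e.strictMono (by decide), e.strictMono (by decide), ?_⟩
  have h2 : Tᶜ = Finset.image e Finset.univ := by
    rw [Finset.image_orderEmbOfFin_univ]
  have h3 : Finset.image e Finset.univ = {e 0, e 1, e 2} := by
    rw [show (Finset.univ : Finset (Fin 3)) = {0, 1, 2} from rfl]
    simp [Finset.image_insert]
  rw [← compl_compl T, h2, h3]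

/-- sets with complement of size one -/
lemma exists_single (T : Finset (Fin N)) (hT : T.card + 1 = N) :
    ∃ a : Fin N, T = {a}ᶜ := by
  have h1 : Tᶜ.card = 1 := by
    rw [Finset.card_compl, Fintype.card_fin]
    omega
  obtain ⟨a, h⟩ := Finset.card_eq_one.1 h1
  exact ⟨a, by rw [← h, compl_compl]⟩

lemma card_compl_single (a : Fin N) : ({a}ᶜ : Finset (Fin N)).card + 1 = N := by
  have := Finset.card_compl_add_card ({a} : Finset (Fin N))
  rw [Finset.card_singleton, Fintype.card_fin] at this
  exact this

lemma card_compl_triple (a b d : Fin N) (hab : a < b) (hbd : b < d) :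
    ({a, b, d}ᶜ : Finset (Fin N)).card + 3 = N := by
  have := Finset.card_compl_add_card ({a, b, d} : Finset (Fin N))
  rw [Finset.card_insert_of_notMem (by
    simp only [Finset.mem_insert, Finset.mem_singleton, not_or]
    exact ⟨hab.ne, (hab.trans hbd).ne⟩), Finset.card_pair hbd.ne, Fintype.card_fin] at this
  exact this

lemma chainOf_add (I : Ideal (MvPolynomial (Fin N) k))
    (F F' : (Fin N → k) →ₗ[k] (Fin N → Fin N → k)) :
    chainOf I (F + F') = chainOf I F + chainOf I F' := by
  ext T
  by_cases hT : T.card + 2 = N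
  · obtain ⟨a, b, hab, rfl⟩ := exists_pair T hT
    rw [Pi.add_apply, chainOf_pair I _ a b hab, chainOf_pair I _ a b hab, chainOf_pair I _ a b hab,
      LinearMap.comp_add, LinearMap.comp_add, linForm_add, map_add, mul_add]
  · rw [Pi.add_apply, chainOf_of_card_ne I _ T hT, chainOf_of_card_ne I _ T hT,
      chainOf_of_card_ne I _ T hT, add_zero]

lemma chainOf_smul (I : Ideal (MvPolynomial (Fin N) k)) (t : k)
    (F : (Fin N → k) →ₗ[k] (Fin N → Fin N → k)) :
    chainOf I (t • F) = t • chainOf I F := by
  ext T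
  by_cases hT : T.card + 2 = N
  · obtain ⟨a, b, hab, rfl⟩ := exists_pair T hT
    rw [Pi.smul_apply, chainOf_pair I _ a b hab, chainOf_pair I _ a b hab,
      LinearMap.comp_smul, LinearMap.comp_smul, linForm_smul, mul_comm, mul_comm ((-1) ^ _)]
    have : Ideal.Quotient.mk I (t • linForm ((LinearMap.proj b).comp ((LinearMap.proj a).comp F)))
        = t • Ideal.Quotient.mk I (linForm ((LinearMap.proj b).comp ((LinearMap.proj a).comp F))) :=
      rfl
    rw [this, smul_mul_assoc]
  · rw [Pi.smul_apply, chainOf_of_card_ne I _ T hT, chainOf_of_card_ne I _ T hT, smul_zero]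

lemma mem_chains (I : Ideal (MvPolynomial (Fin N) k)) (i j : ℕ)
    (c : Finset (Fin N) → MvPolynomial (Fin N) k ⧸ I) : c ∈ chains I i j ↔
      ∀ T, (T.card = i ∧ i ≤ j → ∃ f : MvPolynomial (Fin N) k, f.IsHomogeneous (j - i) ∧
        Ideal.Quotient.mk I f = c T) ∧ (¬ (T.card = i ∧ i ≤ j) → c T = 0) := by
  unfold chains
  rw [Submodule.mem_pi]
  constructor
  · intro h T
    have hT := h T (Set.mem_univ _)
    constructor
    · intro h1
      rw [if_pos h1] at hT
      obtain ⟨f, hf, hfc⟩ := hT
      exact ⟨f, hf, hfc⟩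
    · intro h1
      rw [if_neg h1] at hT
      exact hT
  · intro h T _
    by_cases h1 : T.card = i ∧ i ≤ j
    · rw [if_pos h1]
      obtain ⟨f, hf, hfc⟩ := (h T).1 h1
      exact ⟨f, hf, hfc⟩
    · rw [if_neg h1]
      exact (h T).2 h1

lemma neg_one_pow_mul_mk (I : Ideal (MvPolynomial (Fin N) k)) (m : ℕ)
    (f : MvPolynomial (Fin N) k) :
    (-1) ^ m * Ideal.Quotient.mk I f = Ideal.Quotient.mk I (C ((-1) ^ m) * f) := by
  rw [map_mul]
  congr 1
  rw [map_pow, map_neg, map_one, map_pow, map_neg, map_one]

lemma chainOf_mem (I : Ideal (MvPolynomial (Fin N) k)) (i j : ℕ) (hi : i + 2 = N)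
    (hj : j = i + 1) (F : (Fin N → k) →ₗ[k] (Fin N → Fin N → k)) : chainOf I F ∈ chains I i j := by
  rw [mem_chains]
  intro T
  constructor
  · rintro ⟨hT, _⟩
    obtain ⟨a, b, hab, rfl⟩ := exists_pair T (by omega)
    rw [chainOf_pair I _ a b hab, neg_one_pow_mul_mk]
    refine ⟨_, ?_, rfl⟩
    have := (isHomogeneous_C (Fin N) ((-1 : k) ^ ((a : ℕ) + (b : ℕ)))).mul
      (linForm_hom ((LinearMap.proj b).comp ((LinearMap.proj a).comp F)))
    rw [hj]
    simpa using this
  · intro hT
    refine chainOf_of_card_ne I _ T ?_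
    intro h
    exact hT ⟨by omega, by omega⟩

/-- every chain is of the form `chainOf F` with `F` alternating -/
lemma exists_chainOf (I : Ideal (MvPolynomial (Fin N) k)) (i j : ℕ) (hi : i + 2 = N)
    (hj : j = i + 1) (c : Finset (Fin N) → MvPolynomial (Fin N) k ⧸ I) (hc : c ∈ chains I i j) :
    ∃ F : (Fin N → k) →ₗ[k] (Fin N → Fin N → k),
      (∀ u a, F u a a = 0) ∧ (∀ u a b, F u a b = - F u b a) ∧ c = chainOf I F := by
  rw [mem_chains] at hc
  have h1 : ∀ a b : Fin N, ∃ φ : (Fin N → k) →ₗ[k] k, a < b →
      c {a, b}ᶜ = Ideal.Quotient.mk I (linForm φ) := by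
    intro a b
    by_cases hab : a < b
    · obtain ⟨f, hf, hfc⟩ := (hc {a, b}ᶜ).1 ⟨by
        have := card_compl_pair a b hab.ne
        omega, by omega⟩
      rw [hj, Nat.add_sub_cancel_left] at hf
      obtain ⟨φ, hφ⟩ := eq_linForm f hf
      exact ⟨φ, fun _ => by rw [← hfc, hφ]⟩
    · exact ⟨0, fun h => absurd h hab⟩
  choose φ hφ using h1
  let F : (Fin N → k) →ₗ[k] (Fin N → Fin N → k) :=
    { toFun := fun u a b => if a < b then (-1) ^ ((a : ℕ) + (b : ℕ)) * φ a b u
        else if b < a then - ((-1) ^ ((a : ℕ) + (b : ℕ)) * φ b a u) else 0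
      map_add' := by
        intro u v
        ext a b
        simp only [map_add, Pi.add_apply]
        split_ifs <;> ring
      map_smul' := by
        intro t u
        ext a b
        simp only [map_smul, Pi.smul_apply, smul_eq_mul, RingHom.id_apply]
        split_ifs <;> ring }
  have hF : ∀ u a b, F u a b = if a < b then (-1) ^ ((a : ℕ) + (b : ℕ)) * φ a b u
        else if b < a then - ((-1) ^ ((a : ℕ) + (b : ℕ)) * φ b a u) else 0 := fun u a b => rfl
  refine ⟨F, ?_, ?_, ?_⟩
  · intro u a
    rw [hF, if_neg (lt_irrefl _), if_neg (lt_irrefl _)]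
  · intro u a b
    rw [hF, hF]
    rcases lt_trichotomy a b with h | h | h
    · rw [if_pos h, if_neg (not_lt.2 h.le), if_pos h, neg_neg, add_comm]
    · subst h
      rw [if_neg (lt_irrefl _), if_neg (lt_irrefl _), neg_zero]
    · rw [if_neg (not_lt.2 h.le), if_pos h, if_pos h, add_comm]
  · ext T
    by_cases hT : T.card + 2 = N
    · obtain ⟨a, b, hab, rfl⟩ := exists_pair T hT
      rw [hφ a b hab, chainOf_pair I _ a b hab, neg_one_pow_mul_mk]
      congr 1
      have : (LinearMap.proj b).comp ((LinearMap.proj a).comp F)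
          = ((-1 : k) ^ ((a : ℕ) + (b : ℕ))) • φ a b := by
        ext u
        simp only [LinearMap.comp_apply, LinearMap.proj_apply, LinearMap.smul_apply, smul_eq_mul]
        rw [hF, if_pos hab]
      rw [this, linForm_smul, MvPolynomial.smul_eq_C_mul, ← mul_assoc, ← map_mul, ← mul_pow]
      simp
    · rw [chainOf_of_card_ne I _ T hT, (hc T).2 (fun h => hT (by omega))]

/-- the chain of homological degree `N - 1` with constant entries attached to a vector -/
noncomputable def bOf (I : Ideal (MvPolynomial (Fin N) k)) (β : Fin N → k) (T : Finset (Fin N)) :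
    MvPolynomial (Fin N) k ⧸ I :=
  if T.card + 1 = N then ∑ a ∈ Tᶜ, Ideal.Quotient.mk I (C ((-1) ^ (a : ℕ) * β a)) else 0

/-- the linear map `u ↦ u ∧ β` -/
def wedge (β : Fin N → k) : (Fin N → k) →ₗ[k] (Fin N → Fin N → k) where
  toFun u a b := u a * β b - u b * β a
  map_add' u v := by
    ext a b
    simp only [Pi.add_apply]
    ring
  map_smul' t u := by
    ext a b
    simp only [Pi.smul_apply, smul_eq_mul, RingHom.id_apply]
    ring

lemma wedge_apply (β u : Fin N → k) (a b : Fin N) : wedge β u a b = u a * β b - u b * β a := rfl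

lemma bOf_single (I : Ideal (MvPolynomial (Fin N) k)) (β : Fin N → k) (a : Fin N) :
    bOf I β {a}ᶜ = Ideal.Quotient.mk I (C ((-1) ^ (a : ℕ) * β a)) := by
  rw [bOf, if_pos (card_compl_single a), compl_compl, Finset.sum_singleton]

lemma linForm_wedge (β : Fin N → k) (a b : Fin N) :
    linForm ((LinearMap.proj b).comp ((LinearMap.proj a).comp (wedge β)))
      = X a * C (β b) - X b * C (β a) := by
  unfold linForm
  simp only [LinearMap.comp_apply, LinearMap.proj_apply, wedge_apply, Pi.single_apply, map_sub,
    sub_mul, Finset.sum_sub_distrib, ite_mul, one_mul, zero_mul]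
  have h : ∀ (x : Fin N) (y : k), ∑ i, C (if x = i then y else 0) * X i
      = (X x * C y : MvPolynomial (Fin N) k) := by
    intro x y
    rw [Finset.sum_eq_single x]
    · rw [if_pos rfl, mul_comm]
    · intro i _ hi
      rw [if_neg (Ne.symm hi), C_0, zero_mul]
    · intro h
      exact absurd (Finset.mem_univ x) h
  rw [h, h]

lemma koszulD_bOf (I : Ideal (MvPolynomial (Fin N) k)) (β : Fin N → k) :
    koszulD I (bOf I β) = chainOf I (wedge β) := by
  ext T
  by_cases hT : T.card + 2 = N
  · obtain ⟨a, b, hab, rfl⟩ := exists_pair T hT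
    rw [koszulD_pair I _ a b hab, chainOf_pair I _ a b hab, bOf_single, bOf_single, linForm_wedge]
    simp only [map_mul, map_sub, map_pow, map_neg, map_one]
    ring
  · rw [chainOf_of_card_ne I _ T hT, koszulD_apply]
    refine Finset.sum_eq_zero fun x hx => ?_
    rw [Finset.mem_compl] at hx
    have : bOf I β (insert x T) = 0 := by
      rw [bOf, if_neg]
      rw [Finset.card_insert_of_notMem hx]
      omega
    rw [this, mul_zero, mul_zero]

lemma bOf_mem (I : Ideal (MvPolynomial (Fin N) k)) (j : ℕ) (hj : j + 1 = N) (β : Fin N → k) :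
    bOf I β ∈ chains I j j := by
  rw [mem_chains]
  intro T
  constructor
  · rintro ⟨hT, _⟩
    obtain ⟨a, rfl⟩ := exists_single T (by omega)
    rw [bOf_single]
    refine ⟨_, ?_, rfl⟩
    rw [Nat.sub_self]
    exact isHomogeneous_C _ _
  · intro hT
    rw [bOf, if_neg]
    intro h
    exact hT ⟨by omega, le_rfl⟩

lemma exists_bOf (I : Ideal (MvPolynomial (Fin N) k)) (j : ℕ) (hj : j + 1 = N)
    (c : Finset (Fin N) → MvPolynomial (Fin N) k ⧸ I) (hc : c ∈ chains I j j) :
    ∃ β : Fin N → k, c = bOf I β := by
  rw [mem_chains] at hc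
  have h1 : ∀ a : Fin N, ∃ t : k, c {a}ᶜ = Ideal.Quotient.mk I (C t) := by
    intro a
    obtain ⟨f, hf, hfc⟩ := (hc {a}ᶜ).1 ⟨by
      have := card_compl_single a
      omega, le_rfl⟩
    rw [Nat.sub_self] at hf
    obtain ⟨t, ht⟩ := eq_C_of_hom f hf
    exact ⟨t, by rw [← hfc, ht]⟩
  choose t ht using h1
  refine ⟨fun a => (-1) ^ (a : ℕ) * t a, ?_⟩
  ext T
  by_cases hT : T.card + 1 = N
  · obtain ⟨a, rfl⟩ := exists_single T hT
    rw [ht, bOf_single, ← mul_assoc, ← mul_pow]
    simp
  · rw [bOf, if_neg hT, (hc T).2 (fun h => hT (by omega))]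

/-- the boundaries of homological degree `N - 2` and internal degree `N - 1` -/
lemma mem_boundaries (I : Ideal (MvPolynomial (Fin N) k)) (j : ℕ) (hj : j + 1 = N)
    (c : Finset (Fin N) → MvPolynomial (Fin N) k ⧸ I) :
    c ∈ (chains I j j).map (koszulD I) ↔ ∃ β : Fin N → k, c = chainOf I (wedge β) := by
  constructor
  · rintro ⟨b, hb, rfl⟩
    obtain ⟨β, rfl⟩ := exists_bOf I j hj b hb
    exact ⟨β, koszulD_bOf I β⟩
  · rintro ⟨β, rfl⟩
    exact ⟨bOf I β, bOf_mem I j hj β, koszulD_bOf I β⟩

end KoszulLemmas

section Evaluation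

variable {k : Type} [Field k] {N : ℕ} (Z : Set (Fin N → k))

lemma mk_eq_zero_iff (f : MvPolynomial (Fin N) k) :
    Ideal.Quotient.mk (vanishingIdeal k Z) f = 0 ↔ ∀ z ∈ Z, eval z f = 0 := by
  rw [Ideal.Quotient.eq_zero_iff_mem, mem_vanishingIdeal_iff]
  rfl

lemma neg_one_pow_mul_eq_zero {R : Type} [CommRing R] (m : ℕ) (r : R) :
    (-1) ^ m * r = 0 ↔ r = 0 := by
  constructor
  · intro h
    have h2 : (-1) ^ m * ((-1) ^ m * r) = 0 := by rw [h, mul_zero]
    rw [← mul_assoc, ← mul_pow] at h2
    simpa using h2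
  · intro h
    rw [h, mul_zero]

lemma chainOf_eq_zero_iff (F : (Fin N → k) →ₗ[k] (Fin N → Fin N → k)) :
    chainOf (vanishingIdeal k Z) F = 0 ↔ ∀ z ∈ Z, ∀ a b : Fin N, a < b → F z a b = 0 := by
  constructor
  · intro h z hz a b hab
    have h1 := congrFun h {a, b}ᶜ
    rw [chainOf_pair _ _ a b hab, Pi.zero_apply, neg_one_pow_mul_eq_zero, mk_eq_zero_iff] at h1
    have h2 := h1 z hz
    rwa [eval_linForm] at h2
  · intro h
    ext T
    rw [Pi.zero_apply]
    by_cases hT : T.card + 2 = N
    · obtain ⟨a, b, hab, rfl⟩ := exists_pair T hT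
      rw [chainOf_pair _ _ a b hab, neg_one_pow_mul_eq_zero, mk_eq_zero_iff]
      intro z hz
      rw [eval_linForm]
      exact h z hz a b hab
    · exact chainOf_of_card_ne _ _ T hT

lemma cycle_iff (F : (Fin N → k) →ₗ[k] (Fin N → Fin N → k)) :
    koszulD (vanishingIdeal k Z) (chainOf (vanishingIdeal k Z) F) = 0 ↔
      ∀ z ∈ Z, ∀ a b d : Fin N, a < b → b < d →
        z a * F z b d - z b * F z a d + z d * F z a b = 0 := by
  have key : ∀ a b d : Fin N, a < b → b < d →
      koszulD (vanishingIdeal k Z) (chainOf (vanishingIdeal k Z) F) {a, b, d}ᶜ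
      = (-1) ^ ((a : ℕ) + (b : ℕ) + (d : ℕ)) * Ideal.Quotient.mk (vanishingIdeal k Z)
        (X a * linForm ((LinearMap.proj d).comp ((LinearMap.proj b).comp F))
          - X b * linForm ((LinearMap.proj d).comp ((LinearMap.proj a).comp F))
          + X d * linForm ((LinearMap.proj b).comp ((LinearMap.proj a).comp F))) := by
    intro a b d hab hbd
    rw [koszulD_triple _ _ a b d hab hbd, chainOf_pair _ _ a b hab, chainOf_pair _ _ b d hbd,
      chainOf_pair _ _ a d (hab.trans hbd)]
    simp only [map_add, map_sub, map_mul]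
    ring
  constructor
  · intro h z hz a b d hab hbd
    have h1 := congrFun h {a, b, d}ᶜ
    rw [key a b d hab hbd, Pi.zero_apply, neg_one_pow_mul_eq_zero, mk_eq_zero_iff] at h1
    have h2 := h1 z hz
    simp only [map_add, map_sub, map_mul, eval_X, eval_linForm] at h2
    exact h2
  · intro h
    ext T
    rw [Pi.zero_apply]
    by_cases hT : T.card + 3 = N
    · obtain ⟨a, b, d, hab, hbd, rfl⟩ := exists_triple T hT
      rw [key a b d hab hbd, neg_one_pow_mul_eq_zero, mk_eq_zero_iff]
      intro z hz
      simp only [map_add, map_sub, map_mul, eval_X, eval_linForm]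
      exact h z hz a b d hab hbd
    · rw [koszulD_apply]
      refine Finset.sum_eq_zero fun x hx => ?_
      rw [Finset.mem_compl] at hx
      rw [chainOf_of_card_ne, mul_zero, mul_zero]
      rw [Finset.card_insert_of_notMem hx]
      omega

end Evaluation

section Wedge

variable {k : Type} [Field k] {N : ℕ}

/-- the sorted identities imply all identities -/
lemma all_triples (M : Fin N → Fin N → k) (h0 : ∀ a, M a a = 0) (h1 : ∀ a b, M a b = - M b a)
    (z : Fin N → k)
    (h : ∀ a b d : Fin N, a < b → b < d → z a * M b d - z b * M a d + z d * M a b = 0) :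
    ∀ a b d : Fin N, z a * M b d - z b * M a d + z d * M a b = 0 := by
  intro a b d
  rcases lt_trichotomy a b with hab | hab | hab
  · rcases lt_trichotomy b d with hbd | hbd | hbd
    · exact h a b d hab hbd
    · subst hbd
      rw [h0]
      ring
    · rcases lt_trichotomy a d with had | had | had
      · have := h a d b had hbd
        rw [h1 d b] at this
        linear_combination (-1) * this
      · subst had
        rw [h0, h1 b a]
        ring
      · have := h d a b had hab
        rw [h1 d b, h1 d a] at this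
        linear_combination this
  · subst hab
    rw [h0]
    ring
  · rcases lt_trichotomy a d with had | had | had
    · have := h b a d hab had
      rw [h1 b a] at this
      linear_combination (-1) * this
    · subst had
      rw [h0, h1 a b]
      ring
    · rcases lt_trichotomy b d with hbd | hbd | hbd
      · have := h b d a hbd had
        rw [h1 d a, h1 b a] at this
        linear_combination this
      · subst hbd
        rw [h0]
        ring
      · have := h d b a hbd hab
        rw [h1 d a, h1 d b, h1 b a] at this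
        linear_combination (-1) * this

/-- exactness: `p ∧ M = 0` implies `M = p ∧ a` -/
lemma wedge_one (M : Fin N → Fin N → k) (p : Fin N → k) (hp : p ≠ 0)
    (h : ∀ a b d : Fin N, p a * M b d - p b * M a d + p d * M a b = 0) :
    ∃ α : Fin N → k, ∀ b d, M b d = p b * α d - p d * α b := by
  obtain ⟨i, hi⟩ : ∃ i, p i ≠ 0 := by
    by_contra hc
    push Not at hc
    exact hp (funext hc)
  refine ⟨fun c => M i c / p i, ?_⟩
  intro b d
  have := h i b d
  field_simp
  linear_combination this

/-- A basis of a plane. -/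
lemma exists_plane_basis (L : Submodule k (Fin N → k)) (hL : Module.finrank k L = 2) :
    ∃ p q : Fin N → k, p ∈ L ∧ q ∈ L ∧ (∀ s t : k, s • p + t • q = 0 → s = 0 ∧ t = 0) ∧
      ∀ u ∈ L, ∃ s t : k, u = s • p + t • q := by
  have b : Module.Basis (Fin 2) k L := Module.finBasisOfFinrankEq k L hL
  refine ⟨b 0, b 1, (b 0).2, (b 1).2, ?_, ?_⟩
  · intro s t h
    have h1 : s • b 0 + t • b 1 = 0 := by
      apply Subtype.ext
      simpa using h
    have h2 := Fintype.linearIndependent_iff.1 b.linearIndependent ![s, t] (by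
      rw [Fin.sum_univ_two]
      simpa using h1)
    exact ⟨h2 0, h2 1⟩
  · intro u hu
    refine ⟨b.repr ⟨u, hu⟩ 0, b.repr ⟨u, hu⟩ 1, ?_⟩
    have h1 := b.sum_repr ⟨u, hu⟩
    rw [Fin.sum_univ_two] at h1
    have h2 := congrArg (fun x : L => (x : Fin N → k)) h1
    simpa using h2.symm

lemma exists_minor (p q : Fin N → k) (h : ∀ s t : k, s • p + t • q = 0 → s = 0 ∧ t = 0) :
    ∃ i j, p i * q j - p j * q i ≠ 0 := by
  by_contra hc
  push Not at hc
  have hp : p ≠ 0 := by
    rintro rfl
    exact one_ne_zero (h 1 0 (by simp)).1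
  obtain ⟨i, hi⟩ : ∃ i, p i ≠ 0 := by
    by_contra hc'
    push Not at hc'
    exact hp (funext hc')
  have := (h (q i) (-(p i)) (by
    ext j
    simp only [Pi.add_apply, Pi.smul_apply, smul_eq_mul, Pi.zero_apply]
    linear_combination (-1) * hc i j)).2
  exact hi (neg_eq_zero.1 this)

/-- On a plane, a linear family `F` with `u ∧ F u = 0` is of the form `u ∧ α`. -/
lemma line_wedge (L : Submodule k (Fin N → k)) (hL : Module.finrank k L = 2)
    (F : (Fin N → k) →ₗ[k] (Fin N → Fin N → k))
    (h : ∀ u ∈ L, ∀ a b d : Fin N, u a * F u b d - u b * F u a d + u d * F u a b = 0) :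
    ∃ α : Fin N → k, ∀ u ∈ L, F u = wedge α u := by
  obtain ⟨p, q, hp, hq, hind, hspan⟩ := exists_plane_basis L hL
  have hp0 : p ≠ 0 := by
    rintro rfl
    exact one_ne_zero (hind 1 0 (by simp)).1
  have hq0 : q ≠ 0 := by
    rintro rfl
    exact one_ne_zero (hind 0 1 (by simp)).2
  obtain ⟨α, hα⟩ := wedge_one (F p) p hp0 (h p hp)
  obtain ⟨β, hβ⟩ := wedge_one (F q) q hq0 (h q hq)
  obtain ⟨i, j, hij⟩ := exists_minor p q hind
  obtain ⟨δ, hδ⟩ : ∃ δ : Fin N → k, ∀ c, δ c = β c - α c := ⟨_, fun _ => rfl⟩
  have hdet : ∀ a b d, p a * (q b * δ d - q d * δ b) - p b * (q a * δ d - q d * δ a)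
      + p d * (q a * δ b - q b * δ a) = 0 := by
    intro a b d
    have h1 := h (p + q) (L.add_mem hp hq) a b d
    simp only [map_add, Pi.add_apply, hα, hβ] at h1
    rw [hδ, hδ, hδ]
    linear_combination h1
  obtain ⟨x, hx⟩ : ∃ x, x * (p i * q j - p j * q i) = δ i * q j - δ j * q i :=
    ⟨(δ i * q j - δ j * q i) / (p i * q j - p j * q i), div_mul_cancel₀ _ hij⟩
  obtain ⟨y, hy⟩ : ∃ y, y * (p i * q j - p j * q i) = p i * δ j - p j * δ i :=
    ⟨(p i * δ j - p j * δ i) / (p i * q j - p j * q i), div_mul_cancel₀ _ hij⟩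
  have hδ' : ∀ c, δ c = x * p c + y * q c := by
    intro c
    have h2 := hdet i j c
    have h3 : (p i * q j - p j * q i) * (δ c - (x * p c + y * q c)) = 0 := by
      linear_combination h2 - p c * hx - q c * hy
    exact sub_eq_zero.1 ((mul_eq_zero.1 h3).resolve_left hij)
  refine ⟨fun c => α c + x * p c, ?_⟩
  intro u hu
  obtain ⟨s, t, rfl⟩ := hspan u hu
  ext b d
  rw [map_add, map_smul, map_smul, wedge_apply]
  simp only [Pi.add_apply, Pi.smul_apply, smul_eq_mul, hα, hβ]
  have e1 := hδ b
  have e2 := hδ d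
  rw [hδ'] at e1 e2
  linear_combination (-(t * q b)) * e2 + (t * q d) * e1

lemma wedge_line_inj (L : Submodule k (Fin N → k)) (hL : Module.finrank k L = 2)
    (α : Fin N → k) (h : ∀ u ∈ L, ∀ a b : Fin N, a < b → wedge α u a b = 0) : α = 0 := by
  obtain ⟨p, q, hp, hq, hind, _⟩ := exists_plane_basis L hL
  have hall : ∀ u ∈ L, ∀ a b : Fin N, u a * α b - u b * α a = 0 := by
    intro u hu a b
    rcases lt_trichotomy a b with hab | hab | hab
    · exact h u hu a b hab
    · subst hab
      ring
    · have := h u hu b a hab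
      rw [wedge_apply] at this
      linear_combination (-1) * this
  have hp0 : p ≠ 0 := by
    rintro rfl
    exact one_ne_zero (hind 1 0 (by simp)).1
  obtain ⟨i, hi⟩ : ∃ i, p i ≠ 0 := by
    by_contra hc
    push Not at hc
    exact hp0 (funext hc)
  -- `α` is a multiple of `p`
  have h1 : ∀ b, α b = (α i / p i) * p b := by
    intro b
    have := hall p hp i b
    field_simp
    linear_combination this
  by_cases h0 : α i = 0
  · ext b
    rw [h1 b, h0]
    simp
  · exfalso
    -- then `q` would be a multiple of `p`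
    have h2 : ∀ b, q b * α i - q i * α b = 0 := fun b => by
      have := hall q hq b i
      linear_combination this
    have h3 := (hind (q i / p i) (-1) (by
      ext b
      simp only [Pi.add_apply, Pi.smul_apply, smul_eq_mul, Pi.zero_apply]
      have h4 := h2 b
      rw [h1 b] at h4
      have h5 : α i * (q b - q i / p i * p b) = 0 := by
        linear_combination h4
      have h6 := (mul_eq_zero.1 h5).resolve_left h0
      linear_combination (-1) * h6)).2
    exact one_ne_zero (neg_eq_zero.1 h3)

end Wedge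

section Assembly

open Pool.Agent.H19.GraphComb Pool.Agent.H19.GraphLin

variable {V : Type} [Fintype V] [DecidableEq V] {G : SimpleGraph V} [DecidableRel G.Adj]

omit [DecidableEq V] in
lemma degree_eq_ncard (v : V) : G.degree v = (G.neighborSet v).ncard := by
  rw [← SimpleGraph.card_neighborSet_eq_degree, Set.ncard_eq_toFinset_card', Set.toFinset_card]

/-- the double count of the edges inside a vertex set all of whose vertices have degree three -/
lemma count_edges (S : Finset V) (hS : ∀ x ∈ S, G.degree x = 3) :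
    2 * ((⊤ : G.Subgraph).induce (S : Set V)).edgeSet.ncard + (bdry G S).card = 3 * S.card := by
  classical
  let H : G.Subgraph := (⊤ : G.Subgraph).induce (S : Set V)
  let G' : SimpleGraph V := H.spanningCoe
  have hadj : ∀ x y, G'.Adj x y ↔ x ∈ S ∧ y ∈ S ∧ G.Adj x y := by
    intro x y
    simp [G', H]
  have h1 : H.edgeSet = (G'.edgeFinset : Set (Sym2 V)) := by
    rw [SimpleGraph.coe_edgeFinset]
    simp [G']
  have h2 : H.edgeSet.ncard = G'.edgeFinset.card := by
    rw [h1, Set.ncard_coe_finset]
  have h3 := G'.sum_degrees_eq_twice_card_edges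
  have h4 : ∑ x, G'.degree x = ((Finset.univ : Finset (V × V)).filter
      (fun p => p.1 ∈ S ∧ p.2 ∈ S ∧ G.Adj p.1 p.2)).card := by
    rw [Finset.card_filter, ← Finset.univ_product_univ, Finset.sum_product]
    refine Finset.sum_congr rfl fun x _ => ?_
    rw [← SimpleGraph.card_neighborFinset_eq_degree, SimpleGraph.neighborFinset_eq_filter,
      Finset.card_filter]
    refine Finset.sum_congr rfl fun y _ => ?_
    simp only [hadj]
  have h5 : ((Finset.univ : Finset (V × V)).filter
      (fun p => p.1 ∈ S ∧ p.2 ∈ S ∧ G.Adj p.1 p.2)).card + (bdry G S).card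
      = ((Finset.univ : Finset (V × V)).filter (fun p => p.1 ∈ S ∧ G.Adj p.1 p.2)).card := by
    rw [bdry, ← Finset.card_union_of_disjoint]
    · congr 1
      ext p
      simp only [Finset.mem_union, Finset.mem_filter, Finset.mem_univ, true_and]
      tauto
    · rw [Finset.disjoint_left]
      intro p hp hp'
      simp only [Finset.mem_filter, Finset.mem_univ, true_and] at hp hp'
      exact hp'.2.1 hp.2.1
  have h6 : ((Finset.univ : Finset (V × V)).filter (fun p => p.1 ∈ S ∧ G.Adj p.1 p.2)).card
      = 3 * S.card := by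
    rw [Finset.card_filter, ← Finset.univ_product_univ, Finset.sum_product]
    have h7 : ∀ x, (∑ y, if x ∈ S ∧ G.Adj x y then 1 else 0) = if x ∈ S then 3 else 0 := by
      intro x
      by_cases hx : x ∈ S
      · rw [if_pos hx, ← hS x hx, ← SimpleGraph.card_neighborFinset_eq_degree,
          SimpleGraph.neighborFinset_eq_filter, Finset.card_filter]
        refine Finset.sum_congr rfl fun y _ => ?_
        simp [hx]
      · simp [hx]
    simp only [h7, Finset.sum_ite_mem, Finset.univ_inter, Finset.sum_const, smul_eq_mul]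
    ring
  change 2 * H.edgeSet.ncard + (bdry G S).card = 3 * S.card
  rw [h2, ← h3, h4, h5, h6]

lemma cond_bdry (hA : CondA G) : ∀ (S : Finset V) (v : V), v ∈ S → ConnFrom G S v →
    (∀ x ∈ S, G.degree x = 3) → 3 ≤ (bdry G S).card := by
  classical
  intro S v hv hconn hdeg
  let H : G.Subgraph := (⊤ : G.Subgraph).induce (S : Set V)
  have hHc : H.Connected := by
    have hreach : ∀ x (hx : x ∈ S), H.coe.Reachable ⟨v, hv⟩ ⟨x, hx⟩ := by
      intro x hx
      have h := closed_of_reach (Z := fun y => ∃ hy : y ∈ S, H.coe.Reachable ⟨v, hv⟩ ⟨y, hy⟩)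
        (hconn x hx) ⟨hv, SimpleGraph.Reachable.refl _⟩ (by
          rintro a b ⟨ha, hra⟩ hab
          refine ⟨hab.2.2, hra.trans ?_⟩
          apply SimpleGraph.Adj.reachable
          simp [H, hab.1, ha, hab.2.2])
      exact h.2
    rw [SimpleGraph.Subgraph.connected_iff']
    have : Nonempty H.verts := ⟨⟨v, hv⟩⟩
    refine SimpleGraph.Connected.mk ?_
    rintro ⟨x, hx⟩ ⟨y, hy⟩
    exact (hreach x hx).symm.trans (hreach y hy)
  have h1 := hA.subgraph H hHc
  have h2 := count_edges S hdeg
  have h3 : H.verts.ncard = S.card := by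
    simp [H]
  have h4 : H.edgeSet.ncard = ((⊤ : G.Subgraph).induce (S : Set V)).edgeSet.ncard := rfl
  rw [h3] at h1
  rw [← h4] at h2
  omega

omit [Fintype V] [DecidableEq V] [DecidableRel G.Adj] in
/-- the node vectors of a graph curve -/
lemma exists_nodes {k : Type} [Field k] {N : ℕ} {L : V → Submodule k (Fin N → k)}
    (hL : IsGraphCurve G L) : ∃ P : Sym2 V → (Fin N → k), ∀ v w, G.Adj v w →
      P s(v, w) ≠ 0 ∧ P s(v, w) ∈ L v ∧ P s(v, w) ∈ L w ∧
        ∀ u ∈ L v, u ∈ L w → ∃ t : k, u = t • P s(v, w) := by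
  have h : ∀ e : Sym2 V, ∃ p : Fin N → k, ∀ v w, s(v, w) = e → G.Adj v w →
      p ≠ 0 ∧ p ∈ L v ∧ p ∈ L w ∧ ∀ u ∈ L v, u ∈ L w → ∃ t : k, u = t • p := by
    intro e
    induction e using Sym2.ind with
    | _ v w =>
      by_cases hvw : G.Adj v w
      · obtain ⟨⟨p, hp⟩, hp0, hp1⟩ := finrank_eq_one_iff'.1 (hL.meet v w hvw)
        have key : ∀ u ∈ L v, u ∈ L w → ∃ t : k, u = t • p := by
          intro u hu hu'
          obtain ⟨t, ht⟩ := hp1 ⟨u, hu, hu'⟩
          exact ⟨t, by simpa using (congrArg Subtype.val ht).symm⟩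
        refine ⟨p, ?_⟩
        intro v' w' he _
        have hp0' : p ≠ 0 := fun h => hp0 (Subtype.ext h)
        rw [Sym2.eq_iff] at he
        rcases he with ⟨rfl, rfl⟩ | ⟨rfl, rfl⟩
        · exact ⟨hp0', hp.1, hp.2, key⟩
        · exact ⟨hp0', hp.2, hp.1, fun u h1 h2 => key u h2 h1⟩
      · refine ⟨0, ?_⟩
        intro v' w' he hadj
        rw [Sym2.eq_iff] at he
        rcases he with ⟨rfl, rfl⟩ | ⟨rfl, rfl⟩
        · exact absurd hadj hvw
        · exact absurd hadj.symm hvw
  choose P hP using h
  exact ⟨P, fun v w hvw => hP _ v w rfl hvw⟩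

omit [DecidableEq V] in
lemma exists_data {k : Type} [Field k] {n : ℕ} (hA : CondA G)
    (hn : (n : ℤ) = Fintype.card V - ((G.edgeSet.ncard : ℤ) - Fintype.card V + 1))
    {L : V → Submodule k (Fin (n + 1) → k)} (hL : IsGraphCurve G L) :
    ∃ P : Sym2 V → (Fin (n + 1) → k), Data G L P := by
  obtain ⟨P, hP⟩ := exists_nodes hL
  refine ⟨P, ?_⟩
  have hedge : G.edgeSet.ncard = G.edgeFinset.card := by
    rw [← SimpleGraph.coe_edgeFinset, Set.ncard_coe_finset]
  exact
    { finrank_eq := hL.line
      mem := fun v w h => (hP v w h).2.1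
      meet := fun v w h => (hP v w h).2.2.2
      ne_zero := fun v w h => (hP v w h).1
      indep := by
        intro v w w' hw hw' hne a b hab
        by_contra hc
        have hs : s(v, w) ≠ s(v, w') := by
          intro h
          rw [Sym2.eq_iff] at h
          rcases h with h | h
          · exact hne h.2
          · exact hne (h.2.trans h.1)
        apply hL.nodes v w v w' hw hw' hs
        have hspan : ∀ w, G.Adj v w → L v ⊓ L w = Submodule.span k {P s(v, w)} := by
          intro w hw
          apply le_antisymm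
          · rintro u ⟨hu, hu'⟩
            obtain ⟨t, ht⟩ := (hP v w hw).2.2.2 u hu hu'
            rw [ht]
            exact Submodule.smul_mem _ _ (Submodule.mem_span_singleton_self _)
          · rw [Submodule.span_singleton_le_iff_mem]
            exact ⟨(hP v w hw).2.1, (hP v w hw).2.2.1⟩
        have ha : a ≠ 0 := by
          rintro rfl
          rw [zero_smul, zero_add, smul_eq_zero] at hab
          exact hc ⟨rfl, hab.resolve_right (hP v w' hw').1⟩
        have hb : b ≠ 0 := by
          rintro rfl
          rw [zero_smul, add_zero, smul_eq_zero] at hab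
          exact hc ⟨hab.resolve_right (hP v w hw).1, rfl⟩
        rw [hspan w hw, hspan w' hw']
        apply le_antisymm
        · rw [Submodule.span_singleton_le_iff_mem, Submodule.mem_span_singleton]
          refine ⟨-(a⁻¹ * b), ?_⟩
          have : a • P s(v, w) = -(b • P s(v, w')) := eq_neg_of_add_eq_zero_left hab
          have h2 : P s(v, w) = a⁻¹ • (a • P s(v, w)) := by
            rw [smul_smul, inv_mul_cancel₀ ha, one_smul]
          rw [h2, this, smul_neg, smul_smul, neg_smul]
        · rw [Submodule.span_singleton_le_iff_mem, Submodule.mem_span_singleton]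
          refine ⟨-(b⁻¹ * a), ?_⟩
          have : b • P s(v, w') = -(a • P s(v, w)) := eq_neg_of_add_eq_zero_right hab
          have h2 : P s(v, w') = b⁻¹ • (b • P s(v, w')) := by
            rw [smul_smul, inv_mul_cancel₀ hb, one_smul]
          rw [h2, this, smul_neg, smul_smul, neg_smul]
      span := by
        intro Q hQ
        rw [eq_top_iff, ← hL.span]
        exact iSup_le hQ
      dim := by
        rw [Module.finrank_fintype_fun_eq_card, Fintype.card_fin]
        rw [hedge] at hn
        omega
      degree_le := fun v => by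
        rw [degree_eq_ncard]
        exact hA.degree_le v
      exists_small := by
        obtain ⟨v, hv⟩ := hA.exists_ne
        refine ⟨v, ?_⟩
        have h1 := hA.degree_le v
        rw [← degree_eq_ncard] at h1 hv
        omega
      conn := by
        intro v w
        have := hA.connected.preconnected v w
        rwa [SimpleGraph.reachable_iff_reflTransGen] at this }

omit [Fintype V] [DecidableRel G.Adj] in
/-- if the ends of an edge stay connected after its deletion, the graph stays connected -/
lemma connected_delete (hG : G.Connected) (v w : V)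
    (h : (G.deleteEdges {s(v, w)}).Reachable v w) : (G.deleteEdges {s(v, w)}).Connected := by
  have hstep : ∀ a b, G.Adj a b → (G.deleteEdges {s(v, w)}).Reachable a b := by
    intro a b hab
    by_cases he : s(a, b) = s(v, w)
    · rw [Sym2.eq_iff] at he
      rcases he with ⟨rfl, rfl⟩ | ⟨rfl, rfl⟩
      · exact h
      · exact h.symm
    · apply SimpleGraph.Adj.reachable
      rw [SimpleGraph.deleteEdges_adj]
      exact ⟨hab, by simpa using he⟩
  have hall : ∀ a b, (G.deleteEdges {s(v, w)}).Reachable a b := by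
    intro a b
    have := hG.preconnected a b
    rw [SimpleGraph.reachable_iff_reflTransGen] at this
    exact closed_of_reach (Z := fun b => (G.deleteEdges {s(v, w)}).Reachable a b) this
      (SimpleGraph.Reachable.refl _) (fun c d hc hcd => hc.trans (hstep c d hcd))
  have := hG.nonempty
  exact SimpleGraph.Connected.mk hall

omit [Fintype V] [DecidableEq V] [DecidableRel G.Adj] in
/-- a non-bridge gives a detour -/
lemma detour (v w : V) (h : (G.deleteEdges {s(v, w)}).Connected) :
    ReflTransGen (Gam G v w ∅) v w := by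
  have := h.preconnected v w
  rw [SimpleGraph.reachable_iff_reflTransGen] at this
  refine ReflTransGen.mono (fun a b hab => ?_) _ _ this
  rw [SimpleGraph.deleteEdges_adj] at hab
  exact ⟨hab.1, by simpa using hab.2, Finset.notMem_empty _, Finset.notMem_empty _⟩

/-- The cycle attached to a bridge. -/
lemma exists_bridge_data {k : Type} [Field k] [CharZero k] {N : ℕ} {P : Sym2 V → (Fin N → k)}
    {L : V → Submodule k (Fin N → k)} (hG : G.Connected) (hD : Data G L P) (e : Sym2 V)
    (he : e ∈ G.edgeSet) (hb : ¬ (G.deleteEdges {e}).Connected) :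
    ∃ (v1 w1 : V) (A : V → (Fin N → k)) (F : (Fin N → k) →ₗ[k] (Fin N → Fin N → k)),
      e = s(v1, w1) ∧ G.Adj v1 w1 ∧ (∀ v w, G.Adj v w → s(v, w) ≠ e → A v = A w) ∧
      A v1 - A w1 = P e ∧ ∀ v, ∀ u ∈ L v, F u = wedge (A v) u := by
  classical
  induction e using Sym2.ind with
  | _ v1 w1 =>
    rw [SimpleGraph.mem_edgeSet] at he
    have hnr : ¬ (G.deleteEdges {s(v1, w1)}).Reachable v1 w1 :=
      fun h => hb (connected_delete hG v1 w1 h)
    let A : V → (Fin N → k) := fun v =>
      if (G.deleteEdges {s(v1, w1)}).Reachable v1 v then P s(v1, w1) else 0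
    have hA1 : ∀ v w, G.Adj v w → s(v, w) ≠ s(v1, w1) → A v = A w := by
      intro v w hvw hne
      have hr : (G.deleteEdges {s(v1, w1)}).Adj v w := by
        rw [SimpleGraph.deleteEdges_adj]
        exact ⟨hvw, by simpa using hne⟩
      have : (G.deleteEdges {s(v1, w1)}).Reachable v1 v ↔
          (G.deleteEdges {s(v1, w1)}).Reachable v1 w :=
        ⟨fun h => h.trans hr.reachable, fun h => h.trans hr.symm.reachable⟩
      simp only [A, this]
    have hAv : A v1 = P s(v1, w1) := if_pos (SimpleGraph.Reachable.refl _)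
    have hAw : A w1 = 0 := if_neg hnr
    obtain ⟨F, hF⟩ := extend hD (fun v => wedge (A v)) (by
      intro v w hvw
      by_cases hne : s(v, w) = s(v1, w1)
      · have hself : wedge (P s(v1, w1)) (P s(v1, w1)) = 0 := by
          ext a b
          rw [wedge_apply]
          simp only [Pi.zero_apply]
          ring
        have hzero : wedge (0 : Fin N → k) (P s(v1, w1)) = 0 := by
          ext a b
          rw [wedge_apply]
          simp
        rw [hne]
        rw [Sym2.eq_iff] at hne
        rcases hne with ⟨rfl, rfl⟩ | ⟨rfl, rfl⟩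
        · rw [hAv, hAw, hself, hzero]
        · rw [hAv, hAw, hself, hzero]
      · rw [hA1 v w hvw hne])
    refine ⟨v1, w1, A, F, rfl, he, hA1, ?_, hF⟩
    rw [hAv, hAw, sub_zero]

lemma wedge_add {k : Type} [Field k] {N : ℕ} (α β : Fin N → k) :
    wedge (α + β) = wedge α + wedge β := by
  ext u a b
  simp only [LinearMap.comp_apply, LinearMap.add_apply, Pi.add_apply, wedge_apply]
  ring

lemma wedge_smul {k : Type} [Field k] {N : ℕ} (t : k) (α : Fin N → k) :
    wedge (t • α) = t • wedge α := by
  ext u a b
  simp only [LinearMap.comp_apply, LinearMap.smul_apply, Pi.smul_apply, wedge_apply, smul_eq_mul]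
  ring

/-- `chainOf` as a linear map -/
noncomputable def chainOfL {k : Type} [Field k] {N : ℕ} (I : Ideal (MvPolynomial (Fin N) k)) :
    ((Fin N → k) →ₗ[k] (Fin N → Fin N → k)) →ₗ[k]
      (Finset (Fin N) → MvPolynomial (Fin N) k ⧸ I) where
  toFun := chainOf I
  map_add' := chainOf_add I
  map_smul' := chainOf_smul I

lemma wedge_cancel {k : Type} [Field k] {N : ℕ} (α β p : Fin N → k) (hp : p ≠ 0)
    (h : wedge α p = wedge β p) : ∃ t : k, α - β = t • p := by
  obtain ⟨i, hi⟩ : ∃ i, p i ≠ 0 := by
    by_contra hc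
    push Not at hc
    exact hp (funext hc)
  refine ⟨(α i - β i) / p i, ?_⟩
  ext b
  have h1 := congrFun (congrFun h i) b
  rw [wedge_apply, wedge_apply] at h1
  simp only [Pi.sub_apply, Pi.smul_apply, smul_eq_mul]
  field_simp
  linear_combination h1

lemma main_aux {k : Type} [Field k] [CharZero k] {n : ℕ} (hA : CondA G)
    (hn : (n : ℤ) = Fintype.card V - ((G.edgeSet.ncard : ℤ) - Fintype.card V + 1))
    {L : V → Submodule k (Fin (n + 1) → k)} (hL : IsGraphCurve G L) :
    betti (vanishingIdeal k (⋃ v, (L v : Set (Fin (n + 1) → k)))) (n - 1) n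
      = {e | e ∈ G.edgeSet ∧ ¬ (G.deleteEdges {e}).Connected}.ncard := by
  classical
  obtain ⟨P, hD⟩ := exists_data hA hn hL
  have hA' := cond_bdry hA
  obtain ⟨v₀⟩ := hA.connected.nonempty
  have hn1 : 1 ≤ n := by
    have h1 := hL.line v₀
    have h2 := Submodule.finrank_le (L v₀)
    rw [h1, Module.finrank_fintype_fun_eq_card, Fintype.card_fin] at h2
    omega
  obtain ⟨Z, hZ⟩ : ∃ Z : Set (Fin (n + 1) → k), Z = ⋃ v, (L v : Set (Fin (n + 1) → k)) := ⟨_, rfl⟩
  have hZmem : ∀ v, ∀ u ∈ L v, u ∈ Z := by
    intro v u hu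
    rw [hZ, Set.mem_iUnion]
    exact ⟨v, hu⟩
  have hZmem' : ∀ u ∈ Z, ∃ v, u ∈ L v := by
    intro u hu
    rw [hZ, Set.mem_iUnion] at hu
    exact hu
  rw [← hZ]
  let I : Ideal (MvPolynomial (Fin (n + 1)) k) := vanishingIdeal k Z
  let Br : Type := {e : Sym2 V // e ∈ G.edgeSet ∧ ¬ (G.deleteEdges {e}).Connected}
  have hBr : {e | e ∈ G.edgeSet ∧ ¬ (G.deleteEdges {e}).Connected}.ncard = Fintype.card Br := by
    rw [Set.ncard_eq_toFinset_card', Set.toFinset_card]
    exact Fintype.card_congr (Equiv.refl _)
  choose v1 w1 A F h1 h2 h3 h4 h5 using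
    fun e : Br => exists_bridge_data hA.connected hD e.1 e.2.1 e.2.2
  -- the cycles
  have hcyc : ∀ F0 : (Fin (n + 1) → k) →ₗ[k] (Fin (n + 1) → Fin (n + 1) → k),
      (∀ v, ∃ α, ∀ u ∈ L v, F0 u = wedge α u) →
      chainOf I F0 ∈ chains I (n - 1) n ⊓ LinearMap.ker (koszulD I) := by
    intro F0 hF0
    refine ⟨chainOf_mem I (n - 1) n (by omega) (by omega) F0, ?_⟩
    change koszulD I (chainOf I F0) = 0
    rw [cycle_iff]
    intro z hz a b d _ _
    obtain ⟨v, hv⟩ := hZmem' z hz
    obtain ⟨α, hα⟩ := hF0 v
    rw [hα z hv, wedge_apply, wedge_apply, wedge_apply]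
    ring
  let z : Br → ↥(chains I (n - 1) n ⊓ LinearMap.ker (koszulD I)) := fun e =>
    ⟨chainOf I (F e), hcyc (F e) (fun v => ⟨A e v, h5 e v⟩)⟩
  let Bd : Submodule k ↥(chains I (n - 1) n ⊓ LinearMap.ker (koszulD I)) :=
    ((chains I (n - 1 + 1) n).map (koszulD I)).submoduleOf
      (chains I (n - 1) n ⊓ LinearMap.ker (koszulD I))
  have hBd : ∀ c : ↥(chains I (n - 1) n ⊓ LinearMap.ker (koszulD I)), c ∈ Bd ↔
      ∃ β : Fin (n + 1) → k, (c : Finset (Fin (n + 1)) → MvPolynomial (Fin (n + 1)) k ⧸ I)
        = chainOf I (wedge β) := by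
    intro c
    have h6 : n - 1 + 1 = n := by omega
    have h7 : c ∈ Bd ↔ (c : Finset (Fin (n + 1)) → MvPolynomial (Fin (n + 1)) k ⧸ I) ∈
        (chains I (n - 1 + 1) n).map (koszulD I) := Iff.rfl
    rw [h7, h6, mem_boundaries I n rfl]
  let Θ : (Br → k) →ₗ[k] (↥(chains I (n - 1) n ⊓ LinearMap.ker (koszulD I)) ⧸ Bd) :=
    Bd.mkQ.comp (Fintype.linearCombination k z)
  have hΘ : ∀ y, Θ y = Bd.mkQ (∑ e, y e • z e) := fun y => rfl
  have hsum : ∀ y : Br → k,
      ((∑ e, y e • z e : ↥(chains I (n - 1) n ⊓ LinearMap.ker (koszulD I))) :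
        Finset (Fin (n + 1)) → MvPolynomial (Fin (n + 1)) k ⧸ I)
      = chainOf I (∑ e, y e • F e) := by
    intro y
    have : chainOf I (∑ e, y e • F e) = chainOfL I (∑ e, y e • F e) := rfl
    rw [this, map_sum]
    simp only [map_smul]
    simp [z, chainOfL]
  -- values of the combination on the planes
  have hval : ∀ (y : Br → k) (v : V), ∀ u ∈ L v,
      (∑ e, y e • F e) u = wedge (∑ e, y e • A e v) u := by
    intro y v u hu
    have e1 : wedge (∑ e, y e • A e v) = ∑ e, y e • wedge (A e v) := by
      ext u a b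
      simp only [LinearMap.comp_apply, LinearMap.sum_apply, LinearMap.smul_apply, Finset.sum_apply,
        Pi.smul_apply, wedge_apply, smul_eq_mul, Finset.mul_sum, mul_sub, Finset.sum_sub_distrib]
      congr 1 <;> exact Finset.sum_congr rfl fun e _ => by ring
    rw [e1, LinearMap.sum_apply, LinearMap.sum_apply]
    refine Finset.sum_congr rfl fun e _ => ?_
    rw [LinearMap.smul_apply, LinearMap.smul_apply, h5 e v u hu]
  -- jumps of the combination
  have hjump : ∀ (y : Br → k) (e : Br),
      (∑ e', y e' • A e' (v1 e)) - (∑ e', y e' • A e' (w1 e)) = y e • P e.1 := by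
    intro y e
    rw [← Finset.sum_sub_distrib, Finset.sum_eq_single e]
    · rw [← smul_sub, h4]
    · intro e' _ hne
      rw [h3 e' (v1 e) (w1 e) (h2 e), sub_self]
      intro h
      rw [← h1 e] at h
      exact hne (Subtype.ext h.symm)
    · intro h
      exact absurd (Finset.mem_univ e) h
  have hinj : Function.Injective Θ := by
    rw [← LinearMap.ker_eq_bot, LinearMap.ker_eq_bot']
    intro y hy
    rw [hΘ, Submodule.mkQ_apply, Submodule.Quotient.mk_eq_zero, hBd] at hy
    obtain ⟨β, hβ⟩ := hy
    rw [hsum] at hβ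
    have h6 : chainOf I ((∑ e, y e • F e) + (-1 : k) • wedge β) = 0 := by
      rw [chainOf_add, chainOf_smul, hβ]
      simp
    rw [chainOf_eq_zero_iff] at h6
    have h7 : ∀ v, ∑ e, y e • A e v = β := by
      intro v
      have : (∑ e, y e • A e v) + (-1 : k) • β = 0 := by
        refine wedge_line_inj (L v) (hD.finrank_eq v) _ ?_
        intro u hu a b hab
        have h8 := h6 u (hZmem v u hu) a b hab
        rw [LinearMap.add_apply, hval y v u hu] at h8
        rw [wedge_add, wedge_smul]
        exact h8
      rw [neg_one_smul] at this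
      exact add_neg_eq_zero.1 this
    ext e
    have h8 := hjump y e
    rw [h7, h7, sub_self] at h8
    have h9 : P e.1 ≠ 0 := by
      rw [h1 e]
      exact hD.ne_zero _ _ (h2 e)
    exact (smul_eq_zero.1 h8.symm).resolve_right h9
  have hsurj : Function.Surjective Θ := by
    intro q
    obtain ⟨c, rfl⟩ := Submodule.mkQ_surjective Bd q
    obtain ⟨c, hc⟩ := c
    obtain ⟨F0, hF0, hF1, rfl⟩ := exists_chainOf I (n - 1) n (by omega) (by omega) c hc.1
    have hc2 : koszulD I (chainOf I F0) = 0 := hc.2
    rw [cycle_iff] at hc2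
    have h6 : ∀ v, ∃ α : Fin (n + 1) → k, ∀ u ∈ L v, F0 u = wedge α u := by
      intro v
      refine line_wedge (L v) (hD.finrank_eq v) F0 ?_
      intro u hu
      exact all_triples (F0 u) (hF0 u) (hF1 u) u (hc2 u (hZmem v u hu))
    choose α hα using h6
    have h7 : ∀ v w, G.Adj v w → ∃ t : k, α v - α w = t • P s(v, w) := by
      intro v w hvw
      refine wedge_cancel _ _ _ (hD.ne_zero v w hvw) ?_
      have hm := hD.mem w v hvw.symm
      rw [Sym2.eq_swap] at hm
      rw [← hα v _ (hD.mem v w hvw), ← hα w _ hm]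
    have h8 : ∀ v w, G.Adj v w → (G.deleteEdges {s(v, w)}).Connected → α v = α w := by
      intro v w hvw hcon
      exact no_jump hD hA' α h7 v w hvw (detour v w hcon)
    have h9 : ∀ e : Br, ∃ t : k, α (v1 e) - α (w1 e) = t • P e.1 := by
      intro e
      obtain ⟨t, ht⟩ := h7 _ _ (h2 e)
      exact ⟨t, by rw [ht, ← h1 e]⟩
    choose y hy using h9
    -- the difference is constant
    obtain ⟨γ, hγ⟩ : ∃ γ : V → (Fin (n + 1) → k), ∀ v, γ v = α v - ∑ e, y e • A e v :=
      ⟨_, fun _ => rfl⟩
    have h10 : ∀ v w, G.Adj v w → γ v = γ w := by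
      intro v w hvw
      by_cases hb : (G.deleteEdges {s(v, w)}).Connected
      · rw [hγ, hγ, h8 v w hvw hb]
        congr 1
        refine Finset.sum_congr rfl fun e _ => ?_
        rw [h3 e v w hvw]
        intro h
        exact e.2.2 (h ▸ hb)
      · let e : Br := ⟨s(v, w), hvw, hb⟩
        have hj := hjump y e
        have hye := hy e
        have hvw' : s(v, w) = s(v1 e, w1 e) := h1 e
        have hconst : γ (v1 e) = γ (w1 e) := by
          rw [hγ, hγ]
          rw [← sub_eq_zero]
          have : α (v1 e) - ∑ e', y e' • A e' (v1 e) - (α (w1 e) - ∑ e', y e' • A e' (w1 e))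
              = (α (v1 e) - α (w1 e))
                - ((∑ e', y e' • A e' (v1 e)) - (∑ e', y e' • A e' (w1 e))) := by abel
          rw [this, hj, hye, sub_self]
        rw [Sym2.eq_iff] at hvw'
        rcases hvw' with ⟨h, h'⟩ | ⟨h, h'⟩
        · rw [h, h']
          exact hconst
        · rw [h, h']
          exact hconst.symm
    have h11 : ∀ v, γ v = γ v₀ := by
      intro v
      exact closed_of_reach (Z := fun v => γ v = γ v₀) (hD.conn v₀ v) rfl
        (fun a b ha hab => by rw [← h10 a b hab, ha])
    refine ⟨y, ?_⟩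
    rw [hΘ, Submodule.mkQ_apply, Submodule.mkQ_apply, Submodule.Quotient.eq, hBd]
    refine ⟨(-1 : k) • γ v₀, ?_⟩
    rw [Submodule.coe_sub, hsum]
    change chainOf I (∑ e, y e • F e) - chainOf I F0 = _
    have h12 : chainOf I ((∑ e, y e • F e) + (-1 : k) • F0 + wedge (γ v₀)) = 0 := by
      rw [chainOf_eq_zero_iff]
      intro u hu a b _
      obtain ⟨v, hv⟩ := hZmem' u hu
      rw [LinearMap.add_apply, LinearMap.add_apply, hval y v u hv, LinearMap.smul_apply,
        hα v u hv, ← h11 v, hγ]
      simp only [Pi.add_apply, Pi.smul_apply, wedge_apply, Pi.sub_apply, smul_eq_mul]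
      ring
    rw [chainOf_add, chainOf_add, chainOf_smul] at h12
    rw [wedge_smul, chainOf_smul]
    simp only [neg_smul, one_smul] at h12 ⊢
    exact eq_neg_of_add_eq_zero_left (by rw [sub_eq_add_neg]; exact h12)
  have hfin := LinearEquiv.finrank_eq (LinearEquiv.ofBijective Θ ⟨hinj, hsurj⟩)
  rw [Module.finrank_fintype_fun_eq_card] at hfin
  rw [hBr]
  exact hfin.symm

end Assembly

/-- **Main theorem.** Let `G` satisfy condition (A) (planarity is not needed) and let
`n = d - g`. For every graph curve of `G` in `ℙ^n` over a field of characteristic zero the graded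
Betti number `b_{n-1,n}` equals the number of bridges of `G`. -/
theorem result {k : Type} [Field k] [CharZero k] {V : Type} [Fintype V] (G : SimpleGraph V)
    (hA : CondA G) (n : ℕ)
    (hn : (n : ℤ) = Fintype.card V - ((G.edgeSet.ncard : ℤ) - Fintype.card V + 1))
    (L : V → Submodule k (Fin (n + 1) → k)) (hL : IsGraphCurve G L) :
    betti (vanishingIdeal k (⋃ v, (L v : Set (Fin (n + 1) → k)))) (n - 1) n
      = {e | e ∈ G.edgeSet ∧ ¬ (G.deleteEdges {e}).Connected}.ncard := by
  classical
  exact main_aux hA hn hL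

end Pool.Agent.Results.MP_764677_ag.BridgeBetti
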